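import Pool.Agent.P.MP_847604_al.H80Thin

/-! For a compact metrizable non-archimedean group the answers to Q1 and Q2 coincide, and they are
negative exactly when every normal subgroup of the abstract group is finite or open. -/

set_option autoImplicit false

namespace Pool.Agent.Results.MP_847604_al.Dichotomy

open Pool.Agent.P.MP_847604_al.H80

theorem result (G : Type*) [Group G] [TopologicalSpace G] [NonarchimedeanGroup G] [CompactSpace G]
    [TopologicalSpace.MetrizableSpace G] :
    List.TFAE [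
      ¬ ∃ N : Subgroup G, N.Normal ∧ IsSigmaCompact (N : Set G) ∧
        Uncountable N ∧ Uncountable (G ⧸ N),
      ¬ ∃ N : Subgroup G, N.Normal ∧ @MeasurableSet G (borel G) N ∧
        Uncountable N ∧ Uncountable (G ⧸ N),
      ¬ ∃ N : Subgroup G, N.Normal ∧ MeasureTheory.AnalyticSet (N : Set G) ∧
        Uncountable N ∧ Uncountable (G ⧸ N),
      ¬ ∃ N : Subgroup G, N.Normal ∧ Uncountable N ∧ Uncountable (G ⧸ N),
      ∀ N : Subgroup G, N.Normal → Finite N ∨ IsOpen (N : Set G)] := by
  borelize G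
  let := TopologicalSpace.metrizableSpaceMetric G
  tfae_have 1 → 5 := fun h => (dichotomy h).2
  tfae_have 5 → 4 := fun h ⟨N, h1, h2, h3⟩ => (h N h1).elim
    (fun _ => not_countable (α := N) inferInstance)
    fun o => have := N.quotient_finite_of_isOpen o; not_countable (α := G ⧸ N) inferInstance
  tfae_have 4 → 3 := fun h ⟨N, h1, _, h3⟩ => h ⟨N, h1, h3⟩
  tfae_have 3 → 2 := fun h ⟨N, h1, h2, h3⟩ => h ⟨N, h1, h2.analyticSet, h3⟩
  tfae_have 2 → 1 := fun h ⟨N, h1, ⟨K, k1, k2⟩, h3⟩ =>
    h ⟨N, h1, k2 ▸ MeasurableSet.iUnion fun n => (k1 n).measurableSet, h3⟩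
  tfae_finish

end Pool.Agent.Results.MP_847604_al.Dichotomy
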