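import Pool.Agent.P.MP_847604_al.H80Nil

/-! The virtually pronilpotent groups with a negative answer to Q1 or Q2. -/

set_option autoImplicit false

namespace Pool.Agent.Results.MP_847604_al.ProNilpotent

open Pool.Agent.P.MP_847604_al.H80

theorem result (G : Type*) [Group G] [TopologicalSpace G] [NonarchimedeanGroup G] [CompactSpace G]
    [TopologicalSpace.MetrizableSpace G] [Uncountable G] (P : Subgroup G)
    (hP : IsOpen (P : Set G)) (hnil : ∀ V : OpenNormalSubgroup G,
      Group.IsNilpotent (P.map (QuotientGroup.mk' V.toSubgroup))) :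
    List.TFAE [
      ¬ ∃ N : Subgroup G, N.Normal ∧ @MeasurableSet G (borel G) N ∧
        Uncountable N ∧ Uncountable (G ⧸ N),
      ¬ ∃ N : Subgroup G, N.Normal ∧ MeasureTheory.AnalyticSet (N : Set G) ∧
        Uncountable N ∧ Uncountable (G ⧸ N),
      (∀ N : Subgroup G, N.Normal → IsClosed (N : Set G) → Finite N ∨ IsOpen (N : Set G)) ∧
        ¬ ∃ A : Subgroup G, IsOpen (A : Set G) ∧ ∀ a ∈ A, ∀ b ∈ A, a * b = b * a] := by
  borelize G
  let := TopologicalSpace.metrizableSpaceMetric G
  tfae_have 1 → 3 := fun h => by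
    obtain ⟨f, d⟩ := dichotomy fun ⟨N, h1, ⟨K, k1, k2⟩, h3⟩ =>
      h ⟨N, h1, k2 ▸ MeasurableSet.iUnion fun n => (k1 n).measurableSet, h3⟩
    refine ⟨fun N h1 _ => d N h1, fun ⟨A, a1, a2⟩ => ?_⟩
    have := A.quotient_finite_of_isOpen a1
    have : Finite A := .of_injective _ (Subgroup.inclusion_injective (open_le_fc a1 a2))
    have := Finite.of_subgroup_quotient A
    exact not_countable (α := G) inferInstance
  tfae_have 3 → 2 := fun h ⟨N, h1, _, h2, h3⟩ => (of_closed hP hnil h.1 h.2 N h1).elim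
    (fun _ => not_countable (α := N) inferInstance)
    fun o => have := N.quotient_finite_of_isOpen o; not_countable (α := G ⧸ N) inferInstance
  tfae_have 2 → 1 := fun h ⟨N, h1, h2, h3⟩ => h ⟨N, h1, h2.analyticSet, h3⟩
  tfae_finish

end Pool.Agent.Results.MP_847604_al.ProNilpotent
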